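import Mathlib

set_option autoImplicit false

namespace Pool.Agent.N578.LB

open Polynomial

/-- The polynomials `h_i = X ^ (g i) + ∑ x_(i,k) X ^ k`. -/
noncomputable def hpoly {I : Type} (g : I → ℕ) (x : (Σ i, Fin (g i)) → ℤ) (i : I) : ℤ[X] :=
  X ^ g i + ∑ k : Fin (g i), C (x ⟨i, k⟩) * X ^ (k : ℕ)

/-- The polynomial `X ^ d h(X + q / X)`, `d` the degree of `h`. -/
noncomputable def fpoly (q : ℕ) (h : ℤ[X]) : ℤ[X] :=
  ∑ j ∈ Finset.range (h.natDegree + 1),
    C (h.coeff j) * ((X ^ 2 + C (q : ℤ)) ^ j * X ^ (h.natDegree - j))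

/-- Let the `g i` be positive integers. The point `x` of `ℤ ^ (∑ g i)` gives the family of the polynomials
`f_i = X ^ (g i) h_i(X + q / X)`, `h_i = X ^ (g i) + ∑ x_(i,k) X ^ k`; the Weil `q`-polynomials
of degree `2 g i` are of this form. The property: (1) There is `C` such that for all prime powers `q`, all real `B ≥ 2`,
all lattices `A ℤ ^ (∑ g i)` of finite index with at most `B ^ (1 / 4)` prime divisors, all translates and all
parallelepipeds with respect to the basis with all sides at least `B` times the vectors of the basis, the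
proportion of the points such that `q` divides none of the `tr(h_i) ^ 2` and `P q f` does not hold is at most
`C log B / B ^ (1 / 3)`. (2) There is `R` such that for all prime powers `q ≥ R` every point is at distance at most
`R` from a point with `P q f`. -/
def InAllLattices {I : Type} [Fintype I] [DecidableEq I] (g : I → ℕ) (P : ℕ → (I → ℤ[X]) → Prop) : Prop :=
  (∃ C : ℝ, ∀ q : ℕ, IsPrimePow q → ∀ B : ℝ, 2 ≤ B →
    ∀ A : Matrix (Σ i, Fin (g i)) (Σ i, Fin (g i)) ℤ, A.det ≠ 0 →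
    (A.det.natAbs.primeFactors.card : ℝ) ≤ B ^ (1 / 4 : ℝ) →
    ∀ (a lo : (Σ i, Fin (g i)) → ℤ) (N : (Σ i, Fin (g i)) → ℕ), (∀ s, B ≤ N s) →
    ({y : (Σ i, Fin (g i)) → ℤ | (∀ s, lo s ≤ y s ∧ y s < lo s + N s) ∧
      (∀ i, ¬ (q : ℤ) ∣ (hpoly g (a + A.mulVec y) i).nextCoeff ^ 2) ∧
      ¬ P q (fun i => fpoly q (hpoly g (a + A.mulVec y) i))}.ncard : ℝ) ≤
      C * (Real.log B * B ^ (-(1 / 3) : ℝ)) * ∏ s, (N s : ℝ)) ∧
  (∃ R : ℕ, ∀ q : ℕ, IsPrimePow q → R ≤ q → ∀ x₀ : (Σ i, Fin (g i)) → ℤ, ∃ x : (Σ i, Fin (g i)) → ℤ,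
    (∀ s, |x s - x₀ s| ≤ R) ∧ P q (fun i => fpoly q (hpoly g x i)))

end Pool.Agent.N578.LB
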