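import Mathlib
import Pool.Agent.N578.LB.Def

set_option autoImplicit false

namespace Pool.Agent.N578.LB

open Polynomial

/-- Let the `g i` be positive integers and let `P j q f` be properties depending on a parameter `j`. The point `x` of
`ℤ ^ (∑ g i)` gives the family of the polynomials `f_i = X ^ (g i) h_i(X + q / X)`, `h_i = X ^ (g i) + ∑ x_(i,k) X ^ k`;
the Weil `q`-polynomials of degree `2 g i` are of this form. The property: (1) There is `C` such that for all `j`, all prime
powers `q`, all real `B ≥ 2`, all lattices `A ℤ ^ (∑ g i)` of finite index with at most `B ^ (1 / 4)` prime divisors, all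
translates and all parallelepipeds with respect to the basis with all sides at least `B` times the vectors of the basis,
the proportion of the points such that `q` divides none of the `tr(h_i) ^ 2` and `P j q f` does not hold is at most
`C log B / B ^ (1 / 3)`. (2) There is `R` such that for all `j` and all prime powers `q ≥ R` every point is at distance
at most `R` from a point with `P j q f`. -/
def InAllLatticesFor {I : Type} [Fintype I] [DecidableEq I] (g : I → ℕ) {J : Type}
    (P : J → ℕ → (I → ℤ[X]) → Prop) : Prop :=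
  (∃ C : ℝ, ∀ (j : J) (q : ℕ), IsPrimePow q → ∀ B : ℝ, 2 ≤ B →
    ∀ A : Matrix (Σ i, Fin (g i)) (Σ i, Fin (g i)) ℤ, A.det ≠ 0 →
    (A.det.natAbs.primeFactors.card : ℝ) ≤ B ^ (1 / 4 : ℝ) →
    ∀ (a lo : (Σ i, Fin (g i)) → ℤ) (N : (Σ i, Fin (g i)) → ℕ), (∀ s, B ≤ N s) →
    ({y : (Σ i, Fin (g i)) → ℤ | (∀ s, lo s ≤ y s ∧ y s < lo s + N s) ∧
      (∀ i, ¬ (q : ℤ) ∣ (hpoly g (a + A.mulVec y) i).nextCoeff ^ 2) ∧
      ¬ P j q (fun i => fpoly q (hpoly g (a + A.mulVec y) i))}.ncard : ℝ) ≤
      C * (Real.log B * B ^ (-(1 / 3) : ℝ)) * ∏ s, (N s : ℝ)) ∧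
  (∃ R : ℕ, ∀ (j : J) (q : ℕ), IsPrimePow q → R ≤ q → ∀ x₀ : (Σ i, Fin (g i)) → ℤ,
    ∃ x : (Σ i, Fin (g i)) → ℤ, (∀ s, |x s - x₀ s| ≤ R) ∧ P j q (fun i => fpoly q (hpoly g x i)))

end Pool.Agent.N578.LB
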