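import Mathlib
import Pool.Agent.W484.TB.Bad

set_option autoImplicit false

/-! The sieve of helper521 and helper484 in all parallelepipeds of all lattices of coefficient vectors (helper578). -/

namespace Pool.Agent.N578.LB

open Filter Polynomial Pool.Agent.W521.Frob Pool.Agent.W521.Descent Pool.Agent.W521.Density
  Pool.Agent.W521.Count Pool.Agent.W521.Turan Pool.Agent.W521.Sieve Pool.Agent.W521.Bad
  Pool.Agent.W521.Total Pool.Agent.W484.TB

/-- primes of `U` not dividing `D` -/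
lemma card_primes (U : Set ℕ) (D : ℕ) (hD : D ≠ 0) (l₀ Q : ℕ) (P : Finset ℕ)
    (hP : ∀ l : ℕ, l ≤ Q → l.Prime → l ∈ U → l₀ ≤ l → ¬ l ∣ D → l ∈ P) :
    Nat.card {l : ℕ // l ≤ Q ∧ l.Prime ∧ l ∈ U} ≤ P.card + (l₀ + D.primeFactors.card) := by
  classical
  have h1 : Nat.card {l : ℕ // l ≤ Q ∧ l.Prime ∧ l ∈ U} =
      ((Finset.range (Q + 1)).filter (fun l => l.Prime ∧ l ∈ U)).card := by
    refine Nat.subtype_card _ ?_
    intro l
    rw [Finset.mem_filter, Finset.mem_range, Nat.lt_succ_iff]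
  rw [h1]
  have h2 : (Finset.range (Q + 1)).filter (fun l => l.Prime ∧ l ∈ U) ⊆
      P ∪ (Finset.range l₀ ∪ D.primeFactors) := by
    intro l hl
    obtain ⟨h3, h4, h4'⟩ := Finset.mem_filter.1 hl
    rw [Finset.mem_union, Finset.mem_union, Finset.mem_range]
    by_cases h5 : l₀ ≤ l
    · by_cases h6 : l ∣ D
      · right
        right
        exact Nat.mem_primeFactors.2 ⟨h4, h6, hD⟩
      · left
        exact hP l (by have := Finset.mem_range.1 h3; omega) h4 h4' h5 h6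
    · right
      left
      omega
  refine (Finset.card_le_card h2).trans ((Finset.card_union_le _ _).trans ?_)
  refine Nat.add_le_add_left ((Finset.card_union_le _ _).trans ?_) _
  rw [Finset.card_range]

lemma exp_id {B : ℝ} (hB : 0 < B) : (B ^ (1 / 3 : ℝ)) ^ 2 / B = B ^ (-(1 / 3) : ℝ) := by
  have h1 : (B ^ (1 / 3 : ℝ)) ^ 2 = B ^ (2 / 3 : ℝ) := by
    rw [← Real.rpow_natCast, ← Real.rpow_mul hB.le]
    norm_num
  rw [h1]
  nth_rewrite 2 [← Real.rpow_one B]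
  rw [← Real.rpow_sub hB]
  norm_num

open Classical in
/-- The sieve bound in boxes of side at least `B`. -/
theorem sieve (U : Set ℕ) (hU : Pool.Agent.W484.TB.Dense U) (n : ℕ) (c : ℝ) (hc : 0 < c) (l₀ : ℕ) : ∃ C : ℝ, 0 < C ∧ ∀ D : ℕ, D ≠ 0 →
    ∀ B : ℝ, 2 ≤ B → (D.primeFactors.card : ℝ) ≤ 2 * B ^ (1 / 4 : ℝ) →
    ∀ {ι : Type} [Fintype ι] [DecidableEq ι], Fintype.card ι = n →
    ∀ Ω : ∀ l : ℕ, Finset (ι → ZMod l), (∀ l : ℕ, l.Prime → l ∈ U → l₀ ≤ l → ¬ l ∣ D →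
      c * (l : ℝ) ^ n ≤ ((Ω l).card : ℝ)) →
    ∀ (lo : ι → ℤ) (N : ι → ℕ), (∀ s, B ≤ N s) →
    (((box lo N).filter (fun x => ∀ l : ℕ, l.Prime → l ∈ U → l₀ ≤ l → ¬ l ∣ D →
      red l x ∉ Ω l)).card : ℝ) ≤ C * (Real.log B * B ^ (-(1 / 3) : ℝ)) * ∏ s, (N s : ℝ) := by
  obtain ⟨c₀, hc₀, hU⟩ := hU
  -- the threshold
  have ht : Tendsto (fun B : ℝ => ⌊B ^ (1 / 3 : ℝ)⌋₊) atTop atTop :=
    tendsto_nat_floor_atTop.comp (tendsto_rpow_atTop (by norm_num))
  have hlog : ∀ᶠ B : ℝ in atTop, 32 * Real.log B ≤ c₀ * B ^ (1 / 12 : ℝ) := by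
    have h1 := (isLittleO_log_rpow_atTop (show (0 : ℝ) < 1 / 12 by norm_num)).bound
      (show (0 : ℝ) < c₀ / 32 by positivity)
    filter_upwards [h1, eventually_ge_atTop 1] with B h2 h3
    rw [Real.norm_of_nonneg (Real.log_nonneg h3), Real.norm_of_nonneg (by positivity)] at h2
    linarith
  have hev : ∀ᶠ B : ℝ in atTop, c₀ * (((⌊B ^ (1 / 3 : ℝ)⌋₊ : ℕ) : ℝ) /
      (4 * Real.log (⌊B ^ (1 / 3 : ℝ)⌋₊ : ℕ))) + (l₀ : ℕ) ≤
      (Nat.card {l : ℕ // l ≤ ⌊B ^ (1 / 3 : ℝ)⌋₊ ∧ l.Prime ∧ l ∈ U} : ℝ) ∧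
      3 ≤ ⌊B ^ (1 / 3 : ℝ)⌋₊ ∧ 32 * Real.log B ≤ c₀ * B ^ (1 / 12 : ℝ) :=
    (ht.eventually (prime_count_set U c₀ hc₀ hU _)).and ((ht.eventually (eventually_ge_atTop 3)).and hlog)
  obtain ⟨B₁, hB₁⟩ := eventually_atTop.1 hev
  obtain ⟨B₀, hB₀⟩ : ∃ B₀ : ℝ, B₀ = max B₁ 2 := ⟨_, rfl⟩
  have hB₀2 : 2 ≤ B₀ := by rw [hB₀]; exact le_max_right _ _
  obtain ⟨C₁, hC₁⟩ : ∃ C₁ : ℝ, C₁ = 16 / (c₀ * c ^ 2) + n / (c ^ 2 * Real.log 2) := ⟨_, rfl⟩
  obtain ⟨C₂, hC₂⟩ : ∃ C₂ : ℝ, C₂ = B₀ / Real.log 2 := ⟨_, rfl⟩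
  have hl2 : 0 < Real.log 2 := Real.log_pos (by norm_num)
  have hC₁' : 0 < C₁ := by rw [hC₁]; positivity
  have hC₂' : 0 < C₂ := by rw [hC₂]; positivity
  refine ⟨C₁ + C₂, by positivity, ?_⟩
  intro D hD B hB2 hDB ι _ _ hn Ω hΩ lo N hN
  have hB0 : (0 : ℝ) < B := by linarith
  have hlogB : Real.log 2 ≤ Real.log B := Real.log_le_log (by norm_num) hB2
  have hlogB' : 0 < Real.log B := by linarith
  have hpow : 0 < B ^ (-(1 / 3) : ℝ) := Real.rpow_pos_of_pos hB0 _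
  have hprod : (0 : ℝ) ≤ ∏ s, (N s : ℝ) := Finset.prod_nonneg fun s _ => Nat.cast_nonneg _
  by_cases hlt : B < B₀
  · have h1 : (((box lo N).filter
        (fun x => ∀ l : ℕ, l.Prime → l ∈ U → l₀ ≤ l → ¬ l ∣ D → red l x ∉ Ω l)).card : ℝ) ≤
        ∏ s, (N s : ℝ) := by
      have h2 := Finset.card_filter_le (box lo N)
        (fun x => ∀ l : ℕ, l.Prime → l ∈ U → l₀ ≤ l → ¬ l ∣ D → red l x ∉ Ω l)
      rw [card_box] at h2
      exact_mod_cast h2
    refine h1.trans ?_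
    have h2 : 1 ≤ (C₁ + C₂) * (Real.log B * B ^ (-(1 / 3) : ℝ)) := by
      have h3 : B⁻¹ ≤ B ^ (-(1 / 3) : ℝ) := by
        rw [← Real.rpow_neg_one]
        exact Real.rpow_le_rpow_of_exponent_le (by linarith) (by norm_num)
      calc (1 : ℝ) ≤ B₀ * B⁻¹ := by
            rw [← div_eq_mul_inv, le_div_iff₀ hB0]
            linarith
        _ = C₂ * (Real.log 2 * B⁻¹) := by
            rw [hC₂]
            field_simp
        _ ≤ C₂ * (Real.log B * B ^ (-(1 / 3) : ℝ)) := by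
            refine mul_le_mul_of_nonneg_left ?_ hC₂'.le
            exact mul_le_mul hlogB h3 (by positivity) hlogB'.le
        _ ≤ (C₁ + C₂) * (Real.log B * B ^ (-(1 / 3) : ℝ)) := by
            refine mul_le_mul_of_nonneg_right ?_ (by positivity)
            linarith
    calc ∏ s, (N s : ℝ) = 1 * ∏ s, (N s : ℝ) := (one_mul _).symm
      _ ≤ _ := mul_le_mul_of_nonneg_right h2 hprod
  · push Not at hlt
    obtain ⟨h1, h2, h3⟩ := hB₁ B (le_trans (by rw [hB₀]; exact le_max_left _ _) hlt)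
    obtain ⟨Q, hQ⟩ : ∃ Q : ℕ, Q = ⌊B ^ (1 / 3 : ℝ)⌋₊ := ⟨_, rfl⟩
    rw [← hQ] at h1 h2
    obtain ⟨P, hP⟩ : ∃ P : Finset ℕ, P = (Finset.range (Q + 1)).filter
      (fun l => l.Prime ∧ l ∈ U ∧ l₀ ≤ l ∧ ¬ l ∣ D) := ⟨_, rfl⟩
    have hx0 : 0 < B ^ (1 / 3 : ℝ) := Real.rpow_pos_of_pos hB0 _
    have hQle : (Q : ℝ) ≤ B ^ (1 / 3 : ℝ) := by rw [hQ]; exact Nat.floor_le hx0.le
    have hQ3 : (3 : ℝ) ≤ Q := by exact_mod_cast h2
    have hQge : B ^ (1 / 3 : ℝ) ≤ 2 * Q := by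
      have := Nat.lt_floor_add_one (B ^ (1 / 3 : ℝ))
      rw [← hQ] at this
      linarith
    have hlogQ : 0 < Real.log Q := Real.log_pos (by linarith)
    have hlogQ' : Real.log Q ≤ Real.log B := by
      refine Real.log_le_log (by linarith) (hQle.trans ?_)
      calc B ^ (1 / 3 : ℝ) ≤ B ^ (1 : ℝ) :=
            Real.rpow_le_rpow_of_exponent_le (by linarith) (by norm_num)
        _ = B := Real.rpow_one _
    have hPcard : c₀ * (Q / (4 * Real.log Q)) ≤ P.card + D.primeFactors.card := by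
      have h4 : (Nat.card {l : ℕ // l ≤ Q ∧ l.Prime ∧ l ∈ U} : ℝ) ≤ (P.card : ℝ) + (l₀ + D.primeFactors.card) := by
        have := card_primes U D hD l₀ Q P (fun l g1 g2 g3 g4 g5 => by
          rw [hP]
          exact Finset.mem_filter.2 ⟨Finset.mem_range.2 (by omega), g2, g3, g4, g5⟩)
        exact_mod_cast this
      linarith
    have hmain : c₀ * (B ^ (1 / 3 : ℝ) / (8 * Real.log B)) ≤ c₀ * (Q / (4 * Real.log Q)) := by
      apply mul_le_mul_of_nonneg_left _ hc₀.le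
      rw [div_le_div_iff₀ (by positivity) (by positivity)]
      calc B ^ (1 / 3 : ℝ) * (4 * Real.log Q) ≤ (2 * Q) * (4 * Real.log B) :=
            mul_le_mul hQge (by linarith) (by positivity) (by positivity)
        _ = Q * (8 * Real.log B) := by ring
    have hsmall : 2 * B ^ (1 / 4 : ℝ) ≤ c₀ * (B ^ (1 / 3 : ℝ) / (16 * Real.log B)) := by
      have e : B ^ (1 / 3 : ℝ) = B ^ (1 / 4 : ℝ) * B ^ (1 / 12 : ℝ) := by
        rw [← Real.rpow_add hB0]
        norm_num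
      rw [← mul_div_assoc, le_div_iff₀ (by positivity), e]
      have h5 : 0 < B ^ (1 / 4 : ℝ) := by positivity
      nlinarith
    have hPcard' : c₀ * B ^ (1 / 3 : ℝ) / (16 * Real.log B) ≤ P.card := by
      have e : c₀ * (B ^ (1 / 3 : ℝ) / (8 * Real.log B)) = 2 * (c₀ * (B ^ (1 / 3 : ℝ) / (16 * Real.log B))) := by
        field_simp
        norm_num
      have e2 : c₀ * B ^ (1 / 3 : ℝ) / (16 * Real.log B) = c₀ * (B ^ (1 / 3 : ℝ) / (16 * Real.log B)) := by ring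
      rw [e2]
      linarith
    have hPpos : (0 : ℝ) < P.card := lt_of_lt_of_le (by positivity) hPcard'
    have hPne : P.Nonempty := Finset.card_pos.1 (by exact_mod_cast hPpos)
    have hPmem : ∀ l ∈ P, l.Prime ∧ l ∈ U ∧ l₀ ≤ l ∧ ¬ l ∣ D := fun l hl => by
      rw [hP] at hl
      exact (Finset.mem_filter.1 hl).2
    have hPQ : ∀ l ∈ P, (l : ℝ) ≤ B ^ (1 / 3 : ℝ) := by
      intro l hl
      rw [hP] at hl
      have h3 := Finset.mem_range.1 (Finset.mem_filter.1 hl).1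
      have h4 : (l : ℝ) ≤ Q := by
        have : l ≤ Q := by omega
        exact_mod_cast this
      linarith
    have key := turan P (fun l hl => (hPmem l hl).1) (B ^ (1 / 3 : ℝ)) hPQ Ω c hc
      (fun l hl => by
        rw [hn]
        exact hΩ l (hPmem l hl).1 (hPmem l hl).2.1 (hPmem l hl).2.2.1 (hPmem l hl).2.2.2)
      lo N B hB0 hN hPne
    have hsub : (((box lo N).filter
        (fun x => ∀ l : ℕ, l.Prime → l ∈ U → l₀ ≤ l → ¬ l ∣ D → red l x ∉ Ω l)).card : ℝ) ≤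
        (((box lo N).filter (fun x => ∀ l ∈ P, red l x ∉ Ω l)).card : ℝ) := by
      have : ((box lo N).filter
        (fun x => ∀ l : ℕ, l.Prime → l ∈ U → l₀ ≤ l → ¬ l ∣ D → red l x ∉ Ω l)).card ≤
        ((box lo N).filter (fun x => ∀ l ∈ P, red l x ∉ Ω l)).card := by
        refine Finset.card_le_card ?_
        intro x hx
        obtain ⟨h3, h4⟩ := Finset.mem_filter.1 hx
        exact Finset.mem_filter.2 ⟨h3, fun l hl => h4 l (hPmem l hl).1 (hPmem l hl).2.1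
          (hPmem l hl).2.2.1 (hPmem l hl).2.2.2⟩
      exact_mod_cast this
    refine hsub.trans (key.trans (mul_le_mul_of_nonneg_right ?_ hprod))
    have t1 : 1 / (c ^ 2 * (P.card : ℝ)) ≤
        16 / (c₀ * c ^ 2) * (Real.log B * B ^ (-(1 / 3) : ℝ)) := by
      have h5 : 1 / (c ^ 2 * (P.card : ℝ)) ≤
          1 / (c ^ 2 * (c₀ * B ^ (1 / 3 : ℝ) / (16 * Real.log B))) := by
        refine one_div_le_one_div_of_le (by positivity) ?_
        exact mul_le_mul_of_nonneg_left hPcard' (by positivity)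
      refine h5.trans (le_of_eq ?_)
      rw [Real.rpow_neg hB0.le]
      field_simp
    have t2 : (Fintype.card ι : ℝ) * (B ^ (1 / 3 : ℝ)) ^ 2 / (c ^ 2 * B) ≤
        n / (c ^ 2 * Real.log 2) * (Real.log B * B ^ (-(1 / 3) : ℝ)) := by
      rw [← exp_id hB0, hn]
      have h6 : (n : ℝ) * (B ^ (1 / 3 : ℝ)) ^ 2 / (c ^ 2 * B) =
          n / (c ^ 2 * Real.log 2) *
            (Real.log 2 * ((B ^ (1 / 3 : ℝ)) ^ 2 / B)) := by
        field_simp
      rw [h6]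
      refine mul_le_mul_of_nonneg_left ?_ (by positivity)
      exact mul_le_mul_of_nonneg_right hlogB (by positivity)
    calc 1 / (c ^ 2 * (P.card : ℝ)) +
        (Fintype.card ι : ℝ) * (B ^ (1 / 3 : ℝ)) ^ 2 / (c ^ 2 * B) ≤
        C₁ * (Real.log B * B ^ (-(1 / 3) : ℝ)) := by
          rw [hC₁, add_mul]
          exact add_le_add t1 t2
      _ ≤ (C₁ + C₂) * (Real.log B * B ^ (-(1 / 3) : ℝ)) := by
          refine mul_le_mul_of_nonneg_right ?_ (by positivity)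
          linarith

end Pool.Agent.N578.LB
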