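import Mathlib
import Pool.Agent.N578.LB.Sieve
import Pool.Agent.N578.LB.Def

set_option autoImplicit false

/-! Almost all points of all parallelepipeds of all lattices of coefficient vectors are good (helper578). -/

namespace Pool.Agent.N578.LB

open Filter Polynomial Pool.Agent.W521.Frob Pool.Agent.W521.Descent Pool.Agent.W521.Density
  Pool.Agent.W521.Count Pool.Agent.W521.Turan Pool.Agent.W521.Sieve Pool.Agent.W521.Bad
  Pool.Agent.W521.Total Pool.Agent.W484.TB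

section

variable {ι : Type} [Fintype ι] [DecidableEq ι]

/-- The point `a + A y`. -/
def aff (A : Matrix ι ι ℤ) (a y : ι → ℤ) : ι → ℤ := fun s => a s + (A.mulVec y) s

/-- the same modulo `l` -/
def affl (l : ℕ) (A : Matrix ι ι ℤ) (a : ι → ℤ) (y : ι → ZMod l) : ι → ZMod l :=
  fun s => (a s : ZMod l) + ((A.map (Int.castRingHom (ZMod l))).mulVec y) s

omit [DecidableEq ι] in
lemma red_aff (l : ℕ) (A : Matrix ι ι ℤ) (a y : ι → ℤ) : red l (aff A a y) = affl l A a (red l y) := by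
  funext s
  unfold red aff affl
  simp [Matrix.mulVec, dotProduct]

lemma affl_bij (l : ℕ) (hl : l.Prime) (A : Matrix ι ι ℤ) (hA : ¬ l ∣ A.det.natAbs) (a : ι → ℤ) :
    Function.Bijective (affl l A a) := by
  have : Fact l.Prime := ⟨hl⟩
  have hdet : (A.map (Int.castRingHom (ZMod l))).det ≠ 0 := by
    rw [← RingHom.mapMatrix_apply, ← RingHom.map_det]
    intro h
    apply hA
    have h2 : ((A.det : ℤ) : ZMod l) = 0 := by simpa using h
    rw [ZMod.intCast_zmod_eq_zero_iff_dvd] at h2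
    exact Int.natCast_dvd.1 h2
  have hinj : Function.Injective ((A.map (Int.castRingHom (ZMod l))).mulVec) :=
    Matrix.mulVec_injective_of_isUnit ((Matrix.isUnit_iff_isUnit_det _).2 (isUnit_iff_ne_zero.2 hdet))
  apply Finite.injective_iff_bijective.1
  intro y y' h
  apply hinj
  funext s
  exact add_left_cancel (congrFun h s)

open Classical in
/-- pull back of the conditions -/
noncomputable def pull (A : Matrix ι ι ℤ) (a : ι → ℤ) (Ω : ∀ l : ℕ, Finset (ι → ZMod l)) (l : ℕ) : Finset (ι → ZMod l) :=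
  if h : l.Prime then (haveI := Fact.mk h; Finset.univ.filter (fun y : ι → ZMod l => affl l A a y ∈ Ω l)) else ∅

lemma mem_pull (A : Matrix ι ι ℤ) (a : ι → ℤ) (Ω : ∀ l : ℕ, Finset (ι → ZMod l)) (l : ℕ) (hl : l.Prime) (y : ι → ℤ) :
    red l y ∈ pull A a Ω l ↔ red l (aff A a y) ∈ Ω l := by
  unfold pull
  rw [dif_pos hl, Finset.mem_filter, red_aff]
  simp

lemma card_pull (A : Matrix ι ι ℤ) (a : ι → ℤ) (Ω : ∀ l : ℕ, Finset (ι → ZMod l)) (l : ℕ) (hl : l.Prime)
    (hA : ¬ l ∣ A.det.natAbs) : (pull A a Ω l).card = (Ω l).card := by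
  unfold pull
  rw [dif_pos hl]
  refine Finset.card_bijective (affl l A a) (affl_bij l hl A hA a) ?_
  intro y
  simp

end

lemma primeFactors_card {q : ℕ} (hq : IsPrimePow q) (d : ℕ) : ((q * d).primeFactors.card : ℝ) ≤ 1 + d.primeFactors.card := by
  rcases Nat.eq_zero_or_pos d with h | h
  · rw [h, mul_zero]
    simp
  · rw [Nat.primeFactors_mul hq.ne_zero h.ne']
    have h1 : q.primeFactors.card = 1 := by
      obtain ⟨p, n, hp, hn, rfl⟩ := (isPrimePow_nat_iff _).1 hq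
      rw [Nat.primeFactors_prime_pow hn.ne' hp, Finset.card_singleton]
    have h2 := Finset.card_union_le q.primeFactors d.primeFactors
    rw [h1] at h2
    exact_mod_cast h2

section

variable {I : Type} [Fintype I] [DecidableEq I] (g : I → ℕ)

open Classical in
theorem bad_lattice (U : Set ℕ) (hU : Pool.Agent.W484.TB.Dense U) (hg : ∀ i, 0 < g i) :
    ∃ C : ℝ, 0 < C ∧ ∀ q : ℕ, IsPrimePow q → ∀ B : ℝ, 2 ≤ B →
    ∀ A : Matrix (Σ i, Fin (g i)) (Σ i, Fin (g i)) ℤ, A.det ≠ 0 →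
    (A.det.natAbs.primeFactors.card : ℝ) ≤ B ^ (1 / 4 : ℝ) →
    ∀ (a lo : (Σ i, Fin (g i)) → ℤ) (N : (Σ i, Fin (g i)) → ℕ), (∀ s, B ≤ N s) →
    (((box lo N).filter (fun y => (∀ i, ¬ (q : ℤ) ∣ (polys g (aff A a y) i).nextCoeff ^ 2) ∧
      ¬ GoodU U g q (aff A a y))).card : ℝ) ≤ C * (Real.log B * B ^ (-(1 / 3) : ℝ)) * ∏ s, (N s : ℝ) := by
  have hcardι : Fintype.card (Σ i, Fin (g i)) = ∑ i, g i := by
    rw [Fintype.card_sigma]
    simp
  obtain ⟨cF, hcF⟩ : ∃ cF : ℝ, cF = 1 / (∏ i, 4 ^ g i * (g i).factorial : ℕ) := ⟨_, rfl⟩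
  obtain ⟨cI, hcI⟩ : ∃ cI : ℝ, cI = 1 / (∏ i, 2 * g i : ℕ) := ⟨_, rfl⟩
  have hcFpos : 0 < cF := by
    have : 0 < (∏ i, 4 ^ g i * (g i).factorial : ℕ) :=
      Finset.prod_pos fun i _ => by positivity
    rw [hcF]
    positivity
  have hcIpos : 0 < cI := by
    have : 0 < (∏ i, 2 * g i : ℕ) := Finset.prod_pos fun i _ => by have := hg i; positivity
    rw [hcI]
    positivity
  obtain ⟨l₀, hl₀⟩ : ∃ l₀ : ℕ, l₀ = ∑ i, (4 * g i + 12) + 3 := ⟨_, rfl⟩
  have hl₀' : ∀ i l, l₀ ≤ l → 4 * g i + 12 ≤ l := by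
    intro i l hl
    have := Finset.single_le_sum (f := fun i => 4 * g i + 12) (fun j _ => Nat.zero_le _)
      (Finset.mem_univ i)
    omega
  obtain ⟨CF, hCF, hF⟩ := sieve U hU (Fintype.card (Σ i, Fin (g i))) cF hcFpos l₀
  obtain ⟨CI, hCI, hI⟩ := sieve U hU (Fintype.card (Σ i, Fin (g i))) cI hcIpos l₀
  refine ⟨(∑ i : I, (CF + CI)) + 1, ?_, ?_⟩
  · have : 0 ≤ ∑ i : I, (CF + CI) := Finset.sum_nonneg fun i _ => by positivity
    linarith
  intro q hq B hB A hA hAB a lo N hN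
  have hB0 : (0 : ℝ) < B := by linarith
  have hrate : 0 ≤ Real.log B * B ^ (-(1 / 3) : ℝ) := by
    have := Real.log_nonneg (show (1 : ℝ) ≤ B by linarith)
    positivity
  have hprod : (0 : ℝ) ≤ ∏ s, (N s : ℝ) := Finset.prod_nonneg fun s _ => Nat.cast_nonneg _
  obtain ⟨D, hD⟩ : ∃ D : ℕ, D = q * A.det.natAbs := ⟨_, rfl⟩
  have hD0 : D ≠ 0 := by
    rw [hD]
    exact mul_ne_zero hq.ne_zero (Int.natAbs_ne_zero.2 hA)
  have hDB : (D.primeFactors.card : ℝ) ≤ 2 * B ^ (1 / 4 : ℝ) := by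
    rw [hD]
    have h1 := primeFactors_card hq A.det.natAbs
    have h2 : (1 : ℝ) ≤ B ^ (1 / 4 : ℝ) := Real.one_le_rpow (by linarith) (by norm_num)
    linarith
  have hDq : ∀ l : ℕ, ¬ l ∣ D → ¬ l ∣ q := fun l h1 h2 => h1 (by rw [hD]; exact h2.mul_right _)
  have hDA : ∀ l : ℕ, ¬ l ∣ D → ¬ l ∣ A.det.natAbs := fun l h1 h2 => h1 (by rw [hD]; exact h2.mul_left _)
  let ZF : I → Finset ((Σ i, Fin (g i)) → ℤ) := fun i => (box lo N).filter
    (fun x => ∀ l : ℕ, l.Prime → l ∈ U → l₀ ≤ l → ¬ l ∣ D → red l x ∉ pull A a (evF g q i) l)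
  let ZI : I → Finset ((Σ i, Fin (g i)) → ℤ) := fun i => (box lo N).filter
    (fun x => ∀ l : ℕ, l.Prime → l ∈ U → l₀ ≤ l → ¬ l ∣ D → red l x ∉ pull A a (evI g i) l)
  have hZF : ∀ i, ((ZF i).card : ℝ) ≤ CF * (Real.log B * B ^ (-(1 / 3) : ℝ)) * ∏ s, (N s : ℝ) := by
    intro i
    refine hF D hD0 B hB hDB rfl (pull A a (evF g q i)) ?_ lo N hN
    intro l hl _ hl0 hlD
    have : Fact l.Prime := ⟨hl⟩
    have h1 := flipEvent_lower g hg q i l (fun j => hl₀' j l hl0) (hDq l hlD)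
    have h2 : evF g q i l = flipEvent g q i l := by
      unfold evF
      rw [dif_pos hl]
    rw [card_pull A a (evF g q i) l hl (hDA l hlD), h2, hcF, hcardι, one_div, inv_mul_le_iff₀ (by
      have : 0 < (∏ i, 4 ^ g i * (g i).factorial : ℕ) :=
        Finset.prod_pos fun i _ => by positivity
      exact_mod_cast this)]
    exact_mod_cast h1
  have hZI : ∀ i, ((ZI i).card : ℝ) ≤ CI * (Real.log B * B ^ (-(1 / 3) : ℝ)) * ∏ s, (N s : ℝ) := by
    intro i
    refine hI D hD0 B hB hDB rfl (pull A a (evI g i)) ?_ lo N hN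
    intro l hl _ hl0 hlD
    have : Fact l.Prime := ⟨hl⟩
    have h1 := irrEvent_lower g hg i l (by omega)
    have h2 : evI g i l = irrEvent g i l := by
      unfold evI
      rw [dif_pos hl]
    rw [card_pull A a (evI g i) l hl (hDA l hlD), h2, hcI, hcardι, one_div, inv_mul_le_iff₀ (by
      have : 0 < (∏ i, 2 * g i : ℕ) := Finset.prod_pos fun i _ => by have := hg i; positivity
      exact_mod_cast this)]
    exact_mod_cast h1
  have hsub : (box lo N).filter (fun y => (∀ i, ¬ (q : ℤ) ∣ (polys g (aff A a y) i).nextCoeff ^ 2) ∧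
      ¬ GoodU U g q (aff A a y)) ⊆ Finset.univ.biUnion (fun i => ZF i ∪ ZI i) := by
    intro x hx
    obtain ⟨h1, hS, h2⟩ := Finset.mem_filter.1 hx
    by_contra h3
    apply h2
    have h4 : ∀ i, x ∉ ZF i ∧ x ∉ ZI i := by
      intro i
      have h5 : x ∉ ZF i ∪ ZI i := fun h6 =>
        h3 (Finset.mem_biUnion.2 ⟨i, Finset.mem_univ i, h6⟩)
      rw [Finset.mem_union] at h5
      exact ⟨fun h => h5 (Or.inl h), fun h => h5 (Or.inr h)⟩
    refine ⟨fun i => ?_, fun i => ?_, hS⟩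
    · exact flip_of_not_set g U (l₀ := l₀) (by omega) hg
        (fun h => (h4 i).1 (Finset.mem_filter.2 ⟨h1, fun l e1 e2 e3 e4 e5 =>
          h l e1 e2 e3 (hDq l e4) ((mem_pull A a _ l e1 x).1 e5)⟩))
    · exact irr_of_not g (l₀ := l₀) (q := q)
        (fun h => (h4 i).2 (Finset.mem_filter.2 ⟨h1, fun l e1 e2 e3 e4 e5 =>
          h l e1 e3 (hDq l e4) ((mem_pull A a _ l e1 x).1 e5)⟩))
  have hcard : (((box lo N).filter (fun y => (∀ i, ¬ (q : ℤ) ∣ (polys g (aff A a y) i).nextCoeff ^ 2) ∧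
      ¬ GoodU U g q (aff A a y))).card : ℝ) ≤ ∑ i, (((ZF i).card : ℝ) + (ZI i).card) := by
    have h1 := Finset.card_le_card hsub
    have h2 := h1.trans (Finset.card_biUnion_le)
    have h3 : ∑ i, (ZF i ∪ ZI i).card ≤ ∑ i, ((ZF i).card + (ZI i).card) :=
      Finset.sum_le_sum fun i _ => Finset.card_union_le _ _
    exact_mod_cast h2.trans h3
  calc (((box lo N).filter (fun y => (∀ i, ¬ (q : ℤ) ∣ (polys g (aff A a y) i).nextCoeff ^ 2) ∧
      ¬ GoodU U g q (aff A a y))).card : ℝ) ≤ ∑ i, (((ZF i).card : ℝ) + (ZI i).card) := hcard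
    _ ≤ ∑ i : I, ((CF + CI) * (Real.log B * B ^ (-(1 / 3) : ℝ)) * ∏ s, (N s : ℝ)) := by
        refine Finset.sum_le_sum fun i _ => ?_
        have h1 := hZF i
        have h2 := hZI i
        have h4 : (CF + CI) * (Real.log B * B ^ (-(1 / 3) : ℝ)) * ∏ s, (N s : ℝ) =
          CF * (Real.log B * B ^ (-(1 / 3) : ℝ)) * ∏ s, (N s : ℝ) +
          CI * (Real.log B * B ^ (-(1 / 3) : ℝ)) * ∏ s, (N s : ℝ) := by ring
        rw [h4]
        linarith
    _ = (∑ i : I, (CF + CI)) * (Real.log B * B ^ (-(1 / 3) : ℝ)) * ∏ s, (N s : ℝ) := by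
        rw [← Finset.sum_mul, ← Finset.sum_mul]
    _ ≤ ((∑ i : I, (CF + CI)) + 1) * (Real.log B * B ^ (-(1 / 3) : ℝ)) * ∏ s, (N s : ℝ) := by
        refine mul_le_mul_of_nonneg_right ?_ hprod
        refine mul_le_mul_of_nonneg_right ?_ hrate
        linarith

end

/-- if `q` divides a square then the root is divisible by a fixed `m ≥ √q` -/
lemma sq_dvd {q : ℕ} (hq : IsPrimePow q) : ∃ m : ℕ, q ≤ m ^ 2 ∧ ∀ t : ℤ, (q : ℤ) ∣ t ^ 2 → (m : ℤ) ∣ t := by
  obtain ⟨p, n, hp, hn, rfl⟩ := (isPrimePow_nat_iff _).1 hq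
  refine ⟨p ^ ((n + 1) / 2), ?_, fun t ht => ?_⟩
  · rw [← pow_mul]
    exact Nat.pow_le_pow_right hp.pos (by omega)
  · rcases eq_or_ne t 0 with h | h
    · rw [h]; exact dvd_zero _
    · have h1 : p ^ n ∣ t.natAbs ^ 2 := by
        have := Int.natCast_dvd.1 ht
        rwa [Int.natAbs_pow] at this
      have h0 : t.natAbs ≠ 0 := Int.natAbs_ne_zero.2 h
      rw [hp.pow_dvd_iff_le_factorization (pow_ne_zero 2 h0), Nat.factorization_pow] at h1
      rw [Int.natCast_dvd, hp.pow_dvd_iff_le_factorization h0]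
      simp only [Finsupp.smul_apply, smul_eq_mul] at h1
      omega

theorem inAllLattices (U : Set ℕ) (hU : Pool.Agent.W484.TB.Dense U) {I : Type} [Fintype I] [DecidableEq I] (g : I → ℕ)
    (hg : ∀ i, 0 < g i) (P : ℕ → (I → ℤ[X]) → Prop)
    (hP : ∀ q : ℕ, IsPrimePow q → ∀ x : (Σ i, Fin (g i)) → ℤ,
      GoodU U g q x → P q (fun i => weil q (polys g x i))) : InAllLattices g P := by
  classical
  obtain ⟨C, hC, h⟩ := bad_lattice g U hU hg
  constructor
  · refine ⟨C, fun q hq B hB A hA hAB a lo N hN => ?_⟩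
    refine le_trans ?_ (h q hq B hB A hA hAB a lo N hN)
    rw [← Set.ncard_coe_finset]
    have : {y : (Σ i, Fin (g i)) → ℤ | (∀ s, lo s ≤ y s ∧ y s < lo s + N s) ∧
      (∀ i, ¬ (q : ℤ) ∣ (hpoly g (a + A.mulVec y) i).nextCoeff ^ 2) ∧
      ¬ P q (fun i => fpoly q (hpoly g (a + A.mulVec y) i))}.ncard ≤ _ :=
      Set.ncard_le_ncard (t := (((box lo N).filter (fun y =>
        (∀ i, ¬ (q : ℤ) ∣ (polys g (aff A a y) i).nextCoeff ^ 2) ∧ ¬ GoodU U g q (aff A a y)) :
        Finset ((Σ i, Fin (g i)) → ℤ)) : Set ((Σ i, Fin (g i)) → ℤ))) (fun y hy => by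
          rw [Finset.mem_coe, Finset.mem_filter]
          refine ⟨?_, hy.2.1, fun h1 => hy.2.2 (hP q hq _ h1)⟩
          unfold box
          rw [Fintype.mem_piFinset]
          intro s
          rw [Finset.mem_Ico]
          exact hy.1 s) (Finset.finite_toSet _)
    exact_mod_cast this
  · -- a large constant
    have ht : Tendsto (fun B : ℕ => C * (Real.log B * (B : ℝ) ^ (-(1 / 3) : ℝ))) atTop (nhds (C * 0)) := by
      apply Tendsto.const_mul
      have h1 := (isLittleO_log_rpow_atTop (show (0 : ℝ) < 1 / 3 by norm_num)).tendsto_div_nhds_zero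
      have h2 := h1.comp (tendsto_natCast_atTop_atTop (R := ℝ))
      refine h2.congr' ?_
      filter_upwards [eventually_ge_atTop 1] with B hB
      have : (0 : ℝ) < B := by exact_mod_cast hB
      simp only [Function.comp]
      rw [Real.rpow_neg this.le, div_eq_mul_inv]
    rw [mul_zero] at ht
    obtain ⟨B, hB, hB2⟩ := ((ht.eventually_lt_const (show (0 : ℝ) < 1 by norm_num)).and (eventually_ge_atTop 2)).exists
    refine ⟨4 * B ^ 2 + 2 * B + 1, fun q hq hqR x₀ => ?_⟩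
    obtain ⟨m, hm1, hm2⟩ := sq_dvd hq
    have hm3 : 2 * B < m := by
      by_contra hcon
      push Not at hcon
      have : m ^ 2 ≤ (2 * B) ^ 2 := Nat.pow_le_pow_left hcon 2
      have h5 : (2 * B) ^ 2 = 4 * B ^ 2 := by ring
      omega
    -- the half without multiples
    have hhalf : ∀ c : ℤ, ∃ e : ℤ, (e = 0 ∨ e = B) ∧ ∀ t : ℤ, c + e ≤ t → t < c + e + B → ¬ (q : ℤ) ∣ t ^ 2 := by
      intro c
      by_cases hc : ∃ t : ℤ, c ≤ t ∧ t < c + B ∧ (q : ℤ) ∣ t ^ 2
      · obtain ⟨t, h1, h2, h3⟩ := hc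
        refine ⟨B, Or.inr rfl, fun t' h4 h5 h6 => ?_⟩
        have h7 : (m : ℤ) ∣ t' - t := dvd_sub (hm2 t' h6) (hm2 t h3)
        have h8 : (m : ℤ) ≤ t' - t := Int.le_of_dvd (by linarith) h7
        have h9 : (2 * B : ℤ) < m := by exact_mod_cast hm3
        linarith
      · push Not at hc
        exact ⟨0, Or.inl rfl, fun t h1 h2 => hc t (by linarith) (by linarith)⟩
    choose e he0 he using hhalf
    obtain ⟨lo, hlo⟩ : ∃ lo : (Σ i, Fin (g i)) → ℤ, lo = fun s => x₀ s + e (x₀ s) := ⟨_, rfl⟩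
    have hB2' : (2 : ℝ) ≤ B := by exact_mod_cast hB2
    have h1 := h q hq B hB2' (1 : Matrix (Σ i, Fin (g i)) (Σ i, Fin (g i)) ℤ) (by rw [Matrix.det_one]; exact one_ne_zero)
      (by rw [Matrix.det_one]; simp; positivity) 0 lo (fun _ => B) (fun _ => le_rfl)
    have h2 : ((box lo (fun _ => B)).filter (fun y =>
        (∀ i, ¬ (q : ℤ) ∣ (polys g (aff 1 0 y) i).nextCoeff ^ 2) ∧ ¬ GoodU U g q (aff 1 0 y))).card <
        (box lo (fun _ => B)).card := by
      have hpos : (0 : ℝ) < ∏ s : (Σ i, Fin (g i)), (B : ℝ) := Finset.prod_pos fun _ _ => by linarith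
      have h3 : (((box lo (fun _ => B)).card : ℕ) : ℝ) = ∏ s : (Σ i, Fin (g i)), (B : ℝ) := by
        rw [card_box]
        push_cast
        rfl
      have h4 : (((box lo (fun _ => B)).filter (fun y =>
        (∀ i, ¬ (q : ℤ) ∣ (polys g (aff 1 0 y) i).nextCoeff ^ 2) ∧ ¬ GoodU U g q (aff 1 0 y))).card : ℝ) <
        (box lo (fun _ => B)).card := by
        rw [h3]
        refine lt_of_le_of_lt h1 ?_
        calc C * (Real.log B * (B : ℝ) ^ (-(1 / 3) : ℝ)) * ∏ s : (Σ i, Fin (g i)), (B : ℝ)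
            < 1 * ∏ s : (Σ i, Fin (g i)), (B : ℝ) := mul_lt_mul_of_pos_right hB hpos
          _ = _ := one_mul _
      exact_mod_cast h4
    obtain ⟨x, hx1, hx2⟩ : ∃ x ∈ box lo (fun _ => B), x ∉ (box lo (fun _ => B)).filter (fun y =>
        (∀ i, ¬ (q : ℤ) ∣ (polys g (aff 1 0 y) i).nextCoeff ^ 2) ∧ ¬ GoodU U g q (aff 1 0 y)) := by
      by_contra hcon
      push Not at hcon
      exact absurd (Finset.card_le_card (show box lo (fun _ => B) ⊆ _ from hcon)) (not_le.2 h2)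
    have haff : aff 1 0 x = x := by
      funext s
      unfold aff
      simp
    rw [Finset.mem_filter, haff] at hx2
    have hxs : ∀ s, lo s ≤ x s ∧ x s < lo s + B := by
      intro s
      have := hx1
      unfold box at this
      rw [Fintype.mem_piFinset] at this
      exact Finset.mem_Ico.1 (this s)
    refine ⟨x, fun s => ?_, hP q hq x ?_⟩
    · have h3 := hxs s
      rw [hlo] at h3
      simp only at h3
      have h4 : 0 ≤ e (x₀ s) ∧ e (x₀ s) ≤ B := by
        rcases he0 (x₀ s) with h5 | h5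
        · rw [h5]; exact ⟨le_rfl, by positivity⟩
        · rw [h5]; exact ⟨by positivity, le_rfl⟩
      have h5 : (B : ℤ) ≤ 4 * B ^ 2 + 2 * B + 1 := by nlinarith
      rw [abs_le]
      push_cast
      constructor
      · linarith [h3.1, h4.1]
      · have : (0 : ℤ) ≤ B := by positivity
        nlinarith [h3.2, h4.2]
    · by_contra hcon
      apply hx2
      refine ⟨hx1, fun i => ?_, hcon⟩
      have hgi := hg i
      have hnext : (polys g x i).nextCoeff = x ⟨i, ⟨g i - 1, by omega⟩⟩ := by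
        unfold polys
        rw [nextCoeff_of_natDegree_pos (by rw [mkPoly_natDegree]; exact hgi), mkPoly_natDegree]
        exact mkPoly_coeff (g i) (fun k => x ⟨i, k⟩) ⟨g i - 1, by omega⟩
      rw [hnext]
      have h3 := hxs ⟨i, ⟨g i - 1, by omega⟩⟩
      rw [hlo] at h3
      simp only at h3
      exact he _ _ h3.1 h3.2

end Pool.Agent.N578.LB
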