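import Mathlib
import Pool.Agent.N205.SD.Every
import Pool.Agent.N578.LB.Main

set_option autoImplicit false

/-! Rare exceptions in all parallelepipeds of all lattices: the sieves of helper205 (`N205/SD`), pulled back to lattices
(helper578). -/

namespace Pool.Agent.N578.LB

open Filter Polynomial Pool.Agent.W521.Frob Pool.Agent.W521.Descent Pool.Agent.W521.Density
  Pool.Agent.W521.Count Pool.Agent.W521.Turan Pool.Agent.W521.Total Pool.Agent.W521.Sieve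
  Pool.Agent.W521.Bad Pool.Agent.W484.TB Pool.Agent.N205.SD

lemma dense_univ : Pool.Agent.W484.TB.Dense Set.univ := by
  classical
  refine ⟨1, one_pos, Eventually.of_forall fun N => ?_⟩
  have h1 : Nat.card {l : ℕ // l ≤ N ∧ l.Prime ∧ l ∈ (Set.univ : Set ℕ)} = Nat.primeCounting N := by
    unfold Nat.primeCounting Nat.primeCounting'
    rw [Nat.count_eq_card_filter_range]
    refine Nat.subtype_card _ ?_
    intro l
    simp
  rw [h1, one_mul]

open Classical in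
/-- the exceptional points are rare in all lattices, with a constant which does not depend on the parameter -/
def RareL {I : Type} [Fintype I] [DecidableEq I] (g : I → ℕ) {J : Type}
    (G : J → ℕ → ((Σ i, Fin (g i)) → ℤ) → Prop) : Prop :=
  ∃ C : ℝ, 0 < C ∧ ∀ (j : J) (q : ℕ), IsPrimePow q → ∀ B : ℝ, 2 ≤ B →
    ∀ A : Matrix (Σ i, Fin (g i)) (Σ i, Fin (g i)) ℤ, A.det ≠ 0 →
    (A.det.natAbs.primeFactors.card : ℝ) ≤ B ^ (1 / 4 : ℝ) →
    ∀ (a lo : (Σ i, Fin (g i)) → ℤ) (N : (Σ i, Fin (g i)) → ℕ), (∀ s, B ≤ N s) →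
    (((box lo N).filter (fun y => (∀ i, ¬ (q : ℤ) ∣ (polys g (aff A a y) i).nextCoeff ^ 2) ∧
      ¬ G j q (aff A a y))).card : ℝ) ≤ C * (Real.log B * B ^ (-(1 / 3) : ℝ)) * ∏ s, (N s : ℝ)

section

variable {I : Type} [Fintype I] [DecidableEq I] {g : I → ℕ} {J : Type}

theorem RareL.mono {G G' : J → ℕ → ((Σ i, Fin (g i)) → ℤ) → Prop} (h : RareL g G)
    (hGG : ∀ (j : J) (q : ℕ) (x : (Σ i, Fin (g i)) → ℤ), IsPrimePow q → (∀ i, ¬ (q : ℤ) ∣ (polys g x i).nextCoeff ^ 2) → G j q x → G' j q x) :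
    RareL g G' := by
  classical
  obtain ⟨C, hC, h1⟩ := h
  refine ⟨C, hC, fun j q hq B hB A hA hAB a lo N hN => ?_⟩
  refine le_trans ?_ (h1 j q hq B hB A hA hAB a lo N hN)
  have h2 : ((box lo N).filter (fun y => (∀ i, ¬ (q : ℤ) ∣ (polys g (aff A a y) i).nextCoeff ^ 2) ∧
      ¬ G' j q (aff A a y))) ⊆ ((box lo N).filter (fun y =>
      (∀ i, ¬ (q : ℤ) ∣ (polys g (aff A a y) i).nextCoeff ^ 2) ∧ ¬ G j q (aff A a y))) := by
    intro y hy
    obtain ⟨hy1, hy2, hy3⟩ := Finset.mem_filter.1 hy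
    exact Finset.mem_filter.2 ⟨hy1, hy2, fun h3 => hy3 (hGG j _ _ hq hy2 h3)⟩
  exact_mod_cast Finset.card_le_card h2

theorem rareL_and {G G' : J → ℕ → ((Σ i, Fin (g i)) → ℤ) → Prop}
    (h : RareL g G) (h' : RareL g G') : RareL g (fun j q x => G j q x ∧ G' j q x) := by
  classical
  obtain ⟨C, hC, h1⟩ := h
  obtain ⟨C', hC', h2⟩ := h'
  refine ⟨C + C', by linarith, fun j q hq B hB A hA hAB a lo N hN => ?_⟩
  have e1 := h1 j q hq B hB A hA hAB a lo N hN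
  have e2 := h2 j q hq B hB A hA hAB a lo N hN
  have h3 : ((box lo N).filter (fun y => (∀ i, ¬ (q : ℤ) ∣ (polys g (aff A a y) i).nextCoeff ^ 2) ∧
      ¬ (G j q (aff A a y) ∧ G' j q (aff A a y)))) ⊆
      ((box lo N).filter (fun y => (∀ i, ¬ (q : ℤ) ∣ (polys g (aff A a y) i).nextCoeff ^ 2) ∧ ¬ G j q (aff A a y))) ∪
      ((box lo N).filter (fun y => (∀ i, ¬ (q : ℤ) ∣ (polys g (aff A a y) i).nextCoeff ^ 2) ∧ ¬ G' j q (aff A a y))) := by
    intro y hy
    obtain ⟨hy1, hy2, hy3⟩ := Finset.mem_filter.1 hy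
    rw [Finset.mem_union, Finset.mem_filter, Finset.mem_filter]
    by_cases h4 : G j q (aff A a y)
    · exact Or.inr ⟨hy1, hy2, fun h5 => hy3 ⟨h4, h5⟩⟩
    · exact Or.inl ⟨hy1, hy2, h4⟩
  have h4 := (Finset.card_le_card h3).trans (Finset.card_union_le _ _)
  have h5 : (((box lo N).filter (fun y => (∀ i, ¬ (q : ℤ) ∣ (polys g (aff A a y) i).nextCoeff ^ 2) ∧
      ¬ (G j q (aff A a y) ∧ G' j q (aff A a y)))).card : ℝ) ≤
      (((box lo N).filter (fun y => (∀ i, ¬ (q : ℤ) ∣ (polys g (aff A a y) i).nextCoeff ^ 2) ∧ ¬ G j q (aff A a y))).card : ℝ) +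
      (((box lo N).filter (fun y => (∀ i, ¬ (q : ℤ) ∣ (polys g (aff A a y) i).nextCoeff ^ 2) ∧ ¬ G' j q (aff A a y))).card : ℝ) := by
    exact_mod_cast h4
  have h6 := h5.trans (add_le_add e1 e2)
  have h7 : C * (Real.log B * B ^ (-(1 / 3) : ℝ)) * ∏ s, (N s : ℝ) + C' * (Real.log B * B ^ (-(1 / 3) : ℝ)) * ∏ s, (N s : ℝ) =
    (C + C') * (Real.log B * B ^ (-(1 / 3) : ℝ)) * ∏ s, (N s : ℝ) := by ring
  rw [← h7]
  refine le_trans (le_of_eq ?_) h6
  apply congrArg Nat.cast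
  apply congrArg Finset.card
  ext y
  simp only [Finset.mem_filter]

theorem rareL_true {G : J → ℕ → ((Σ i, Fin (g i)) → ℤ) → Prop} (h : ∀ j q x, G j q x) : RareL g G := by
  classical
  refine ⟨1, one_pos, fun j q hq B hB A hA hAB a lo N hN => ?_⟩
  have h1 : ((box lo N).filter (fun y => (∀ i, ¬ (q : ℤ) ∣ (polys g (aff A a y) i).nextCoeff ^ 2) ∧
      ¬ G j q (aff A a y))) = ∅ := by
    apply Finset.filter_eq_empty_iff.2
    intro y _ h2
    exact h2.2 (h _ _ _)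
  rw [h1, Finset.card_empty, Nat.cast_zero]
  have := Real.log_nonneg (show (1 : ℝ) ≤ B by linarith)
  have : (0 : ℝ) ≤ ∏ s, (N s : ℝ) := Finset.prod_nonneg fun s _ => Nat.cast_nonneg _
  positivity

theorem rareL_all {K : Type} [Fintype K] {G : K → J → ℕ → ((Σ i, Fin (g i)) → ℤ) → Prop} (h : ∀ k, RareL g (G k)) :
    RareL g (fun j q x => ∀ k, G k j q x) := by
  classical
  have key : ∀ S : Finset K, RareL g (fun j q x => ∀ k ∈ S, G k j q x) := by
    intro S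
    induction S using Finset.induction_on with
    | empty => exact rareL_true fun j q x k hk => absurd hk (Finset.notMem_empty k)
    | insert k S hk ih =>
      have h1 := rareL_and (h k) ih
      simpa only [Finset.forall_mem_insert] using h1
  simpa only [Finset.mem_univ, true_imp_iff] using key Finset.univ

theorem trapL (c : ℝ) (hc : 0 < c) (l₀ : ℕ)
    (Ω : J → ℕ → ∀ l : ℕ, Finset ((Σ i, Fin (g i)) → ZMod l))
    (hΩ : ∀ j q l, l.Prime → l₀ ≤ l → ¬ l ∣ q → c * (l : ℝ) ^ (∑ i, g i) ≤ ((Ω j q l).card : ℝ))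
    (G : J → ℕ → ((Σ i, Fin (g i)) → ℤ) → Prop)
    (hG : ∀ j q x, ¬ G j q x → ∀ l : ℕ, l.Prime → l₀ ≤ l → ¬ l ∣ q → red l x ∉ Ω j q l) :
    RareL g G := by
  classical
  have hcardι : Fintype.card (Σ i, Fin (g i)) = ∑ i, g i := by
    rw [Fintype.card_sigma]
    simp
  obtain ⟨C, hC, h⟩ := sieve Set.univ dense_univ (Fintype.card (Σ i, Fin (g i))) c hc l₀
  refine ⟨C, hC, fun j q hq B hB A hA hAB a lo N hN => ?_⟩
  obtain ⟨D, hD⟩ : ∃ D : ℕ, D = q * A.det.natAbs := ⟨_, rfl⟩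
  have hD0 : D ≠ 0 := by
    rw [hD]
    exact mul_ne_zero hq.ne_zero (Int.natAbs_ne_zero.2 hA)
  have hDB : (D.primeFactors.card : ℝ) ≤ 2 * B ^ (1 / 4 : ℝ) := by
    rw [hD]
    have h1 := primeFactors_card hq A.det.natAbs
    have h2 : (1 : ℝ) ≤ B ^ (1 / 4 : ℝ) := Real.one_le_rpow (by linarith) (by norm_num)
    linarith
  have hDq : ∀ l : ℕ, ¬ l ∣ D → ¬ l ∣ q := fun l h1 h2 => h1 (by rw [hD]; exact h2.mul_right _)
  have hDA : ∀ l : ℕ, ¬ l ∣ D → ¬ l ∣ A.det.natAbs := fun l h1 h2 => h1 (by rw [hD]; exact h2.mul_left _)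
  refine le_trans ?_ (h D hD0 B hB hDB rfl (pull A a (Ω j q)) (fun l hl _ hl0 hlD => by
    rw [card_pull A a (Ω j q) l hl (hDA l hlD), hcardι]
    exact hΩ j q l hl hl0 (hDq l hlD)) lo N hN)
  have h2 : ((box lo N).filter (fun y => (∀ i, ¬ (q : ℤ) ∣ (polys g (aff A a y) i).nextCoeff ^ 2) ∧
      ¬ G j q (aff A a y))) ⊆ (box lo N).filter (fun x => ∀ l : ℕ, l.Prime → l ∈ (Set.univ : Set ℕ) → l₀ ≤ l → ¬ l ∣ D →
      red l x ∉ pull A a (Ω j q) l) := by
    intro y hy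
    obtain ⟨hy1, hy2, hy3⟩ := Finset.mem_filter.1 hy
    refine Finset.mem_filter.2 ⟨hy1, ?_⟩
    intro l hl _ hl0 hlD hmem
    exact hG j q _ hy3 l hl hl0 (hDq l hlD) ((mem_pull A a _ l hl y).1 hmem)
  exact_mod_cast Finset.card_le_card h2

theorem rareL_sub (D : ℕ) (G : IntermediateField ℚ ℂ → ℕ → ((Σ i, Fin (g i)) → ℤ) → Prop)
    (h : RareL g G) :
    RareL g (J := {E : IntermediateField ℚ ℂ // Normal ℚ E ∧ FiniteDimensional ℚ E ∧
      Module.finrank ℚ E ≤ D}) (fun E q x => ∀ F ≤ E.1, G F q x) := by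
  classical
  obtain ⟨C, hC, h⟩ := h
  refine ⟨2 ^ D * C, by positivity, ?_⟩
  rintro ⟨E, hE1, hE2, hE3⟩ q hq B hB A hA hAB a lo N hN
  obtain ⟨S, hS, hScard⟩ := subfields_count E
  have hsub : ((box lo N).filter (fun y => (∀ i, ¬ (q : ℤ) ∣ (polys g (aff A a y) i).nextCoeff ^ 2) ∧
      ¬ ∀ F ≤ E, G F q (aff A a y))) ⊆
      S.biUnion fun F => (box lo N).filter (fun y => (∀ i, ¬ (q : ℤ) ∣ (polys g (aff A a y) i).nextCoeff ^ 2) ∧
        ¬ G F q (aff A a y)) := by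
    intro y hy
    obtain ⟨hy1, hy0, hy2⟩ := Finset.mem_filter.1 hy
    push Not at hy2
    obtain ⟨F, hF, hy3⟩ := hy2
    exact Finset.mem_biUnion.2 ⟨F, hS F hF, Finset.mem_filter.2 ⟨hy1, hy0, hy3⟩⟩
  have h1 := (Finset.card_le_card hsub).trans Finset.card_biUnion_le
  have h2 : (((box lo N).filter (fun y => (∀ i, ¬ (q : ℤ) ∣ (polys g (aff A a y) i).nextCoeff ^ 2) ∧
      ¬ ∀ F ≤ E, G F q (aff A a y))).card : ℝ) ≤
      ∑ F ∈ S, (((box lo N).filter (fun y => (∀ i, ¬ (q : ℤ) ∣ (polys g (aff A a y) i).nextCoeff ^ 2) ∧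
        ¬ G F q (aff A a y))).card : ℝ) := by
    exact_mod_cast h1
  obtain ⟨R, hR⟩ : ∃ R : ℝ, R = C * (Real.log B * B ^ (-(1 / 3) : ℝ)) * ∏ s, (N s : ℝ) := ⟨_, rfl⟩
  have h3 : ∑ F ∈ S, (((box lo N).filter (fun y => (∀ i, ¬ (q : ℤ) ∣ (polys g (aff A a y) i).nextCoeff ^ 2) ∧
        ¬ G F q (aff A a y))).card : ℝ) ≤ ∑ _F ∈ S, R := by
    refine Finset.sum_le_sum fun F _ => ?_
    rw [hR]
    exact h F q hq B hB A hA hAB a lo N hN
  have hnn : 0 ≤ R := by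
    rw [hR]
    have := Real.log_nonneg (show (1 : ℝ) ≤ B by linarith)
    have : (0 : ℝ) ≤ ∏ s, (N s : ℝ) := Finset.prod_nonneg fun s _ => Nat.cast_nonneg _
    positivity
  have h4 : (S.card : ℝ) ≤ 2 ^ D := by
    have h5 := hScard.trans (Nat.pow_le_pow_right two_pos hE3)
    exact_mod_cast h5
  rw [Finset.sum_const, nsmul_eq_mul] at h3
  refine le_trans (h2.trans (h3.trans (mul_le_mul_of_nonneg_right h4 hnn))) (le_of_eq ?_)
  rw [hR]
  ring

end

section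

variable {I : Type} [Fintype I] [DecidableEq I] (g : I → ℕ) {J : Type}

theorem rareL_goodU (U : Set ℕ) (hU : Pool.Agent.W484.TB.Dense U) (hg : ∀ i, 0 < g i) :
    RareL g (J := J) (fun _ q x => GoodU U g q x) := by
  classical
  obtain ⟨C, hC, h⟩ := bad_lattice g U hU hg
  refine ⟨C, hC, fun j q hq B hB A hA hAB a lo N hN => ?_⟩
  convert h q hq B hB A hA hAB a lo N hN

theorem rareL_good (hg : ∀ i, 0 < g i) : RareL g (J := J) (fun _ q x => Good g q x) :=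
  (rareL_goodU g (J := J) Set.univ dense_univ hg).mono fun _ _ _ _ _ h => Pool.Agent.N205.NS.good_of_goodU h

theorem rareL_cyc (hg : ∀ i, 0 < g i) (i₀ : I) (n : ℕ) (hn : n + 2 ≤ g i₀) :
    RareL g (J := J) (fun _ _ x => ∃ l : ℕ, l.Prime ∧ l ∈ (Set.univ : Set ℕ) ∧ CycPat (polys g x i₀) l n) := by
  classical
  have hpos : 0 < (∏ i, (2 * g i * (2 ^ g i * (g i).factorial)) : ℕ) :=
    Finset.prod_pos fun i _ => by have := hg i; positivity
  obtain ⟨cF, hcF⟩ : ∃ cF : ℝ, cF = 1 / (∏ i, (2 * g i * (2 ^ g i * (g i).factorial)) : ℕ) := ⟨_, rfl⟩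
  have hcFpos : 0 < cF := by rw [hcF]; positivity
  obtain ⟨l₀, hl₀⟩ : ∃ l₀ : ℕ, l₀ = ∑ i, (4 * g i + 12) + 3 := ⟨_, rfl⟩
  have hl₀' : ∀ i l, l₀ ≤ l → 4 * g i + 12 ≤ l := by
    intro i l hl
    have := Finset.single_le_sum (f := fun i => 4 * g i + 12) (fun j _ => Nat.zero_le _)
      (Finset.mem_univ i)
    omega
  refine trapL (J := J) cF hcFpos l₀ (fun _ _ l => if h : l.Prime then (haveI := Fact.mk h; cycEvent g i₀ n l) else ∅)
    ?_ _ ?_
  · intro _ _ l hl hl0 _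
    have : Fact l.Prime := ⟨hl⟩
    have h1 := cycEvent_lower g hg i₀ n hn l (fun j => hl₀' j l hl0)
    rw [dif_pos hl, hcF, one_div, inv_mul_le_iff₀ (by exact_mod_cast hpos)]
    exact_mod_cast h1
  · intro _ _ x hx l hl hl0 _ hmem
    have : Fact l.Prime := ⟨hl⟩
    rw [dif_pos hl] at hmem
    exact hx ⟨l, hl, Set.mem_univ _, pat_of_mem g i₀ n hn l _ hmem⟩

theorem rareL_fullPat (hg : ∀ i, 0 < g i) (h3 : ∀ i, 3 ≤ g i) :
    RareL g (J := J) (fun _ _ x => ∀ i, FullPat Set.univ (polys g x i)) := by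
  refine rareL_all fun i => ?_
  have h5 := h3 i
  have h6 := rareL_and (rareL_cyc (J := J) g hg i 0 (by omega)) (rareL_and (rareL_cyc (J := J) g hg i 1 (by omega))
    (rareL_cyc (J := J) g hg i (g i - 2) (by omega)))
  unfold FullPat
  have hdeg : ∀ x : (Σ i, Fin (g i)) → ℤ, (polys g x i).natDegree = g i :=
    fun x => mkPoly_natDegree (g i) _
  simpa only [hdeg] using h6

theorem rareL_trA (hg : ∀ i, 0 < g i) (i₀ : I) :
    RareL g (fun F q x => ¬ TrA g i₀ F q x) := by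
  classical
  have hpos : 0 < (∏ i, 4 ^ g i * (g i).factorial : ℕ) := Finset.prod_pos fun i _ => by positivity
  obtain ⟨cF, hcF⟩ : ∃ cF : ℝ, cF = 1 / (∏ i, 4 ^ g i * (g i).factorial : ℕ) := ⟨_, rfl⟩
  have hcFpos : 0 < cF := by rw [hcF]; positivity
  obtain ⟨l₀, hl₀⟩ : ∃ l₀ : ℕ, l₀ = ∑ i, (4 * g i + 12) + 3 := ⟨_, rfl⟩
  have hl₀' : ∀ i l, l₀ ≤ l → 4 * g i + 12 ≤ l := by
    intro i l hl
    have := Finset.single_le_sum (f := fun i => 4 * g i + 12) (fun j _ => Nat.zero_le _)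
      (Finset.mem_univ i)
    omega
  let Ω : IntermediateField ℚ ℂ → ℕ → ∀ l : ℕ, Finset ((Σ i, Fin (g i)) → ZMod l) := fun F q l =>
    if h : l.Prime then
      (haveI := Fact.mk h
       if ∃ x', TrA g i₀ F q x' ∧ Flip1 q (polys g x' i₀) l then splitEv g q i₀ l
       else flipEv g q i₀ l)
    else ∅
  refine trapL cF hcFpos l₀ Ω ?_ _ ?_
  · intro F q l hl hl0 hlq
    have : Fact l.Prime := ⟨hl⟩
    have h2 : Ω F q l = if ∃ x', TrA g i₀ F q x' ∧ Flip1 q (polys g x' i₀) l then splitEv g q i₀ l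
       else flipEv g q i₀ l := dif_pos hl
    rw [h2, hcF, one_div, inv_mul_le_iff₀ (by exact_mod_cast hpos)]
    split_ifs with h3
    · exact_mod_cast splitEv_lower g q i₀ l (fun j => hl₀' j l hl0) hlq
    · exact_mod_cast flipEv_lower g hg q i₀ l (fun j => hl₀' j l hl0) hlq
  · intro F q x hx l hl hl0 hlq hmem
    rw [not_not] at hx
    have : Fact l.Prime := ⟨hl⟩
    have h2 : Ω F q l = if ∃ x', TrA g i₀ F q x' ∧ Flip1 q (polys g x' i₀) l then splitEv g q i₀ l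
       else flipEv g q i₀ l := dif_pos hl
    rw [h2] at hmem
    split_ifs at hmem with h3
    · obtain ⟨x', hx', hflip⟩ := h3
      obtain ⟨hirr, z, hz, hzF⟩ := hx
      obtain ⟨hirr', z', hz', hzF'⟩ := hx'
      refine trap_flip (mkPoly_monic (g i₀) _) (mkPoly_monic (g i₀) _) hirr' hirr hl (by omega) hlq
        hflip (split1_of_mem g q i₀ l x hmem) z' z hz' hz ?_
      rw [hzF, ← hzF']
      exact IntermediateField.mem_adjoin_simple_self ℚ z'
    · exact h3 ⟨x, hx, flip1_of_mem g hg q i₀ l x hmem⟩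

theorem rareL_trT (hg : ∀ i, 0 < g i) (i₀ : I) (h3 : 3 ≤ g i₀) :
    RareL g (fun F _ x => ¬ TrT g i₀ F x) := by
  classical
  have hpos : 0 < (∏ i, (2 * g i * (2 ^ g i * (g i).factorial)) : ℕ) :=
    Finset.prod_pos fun i _ => by have := hg i; positivity
  obtain ⟨cF, hcF⟩ : ∃ cF : ℝ, cF = 1 / (∏ i, (2 * g i * (2 ^ g i * (g i).factorial)) : ℕ) := ⟨_, rfl⟩
  have hcFpos : 0 < cF := by rw [hcF]; positivity
  obtain ⟨l₀, hl₀⟩ : ∃ l₀ : ℕ, l₀ = ∑ i, (4 * g i + 12) + 3 := ⟨_, rfl⟩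
  have hl₀' : ∀ i l, l₀ ≤ l → 4 * g i + 12 ≤ l := by
    intro i l hl
    have := Finset.single_le_sum (f := fun i => 4 * g i + 12) (fun j _ => Nat.zero_le _)
      (Finset.mem_univ i)
    omega
  let Ω : IntermediateField ℚ ℂ → ℕ → ∀ l : ℕ, Finset ((Σ i, Fin (g i)) → ZMod l) := fun F _ l =>
    if h : l.Prime then
      (haveI := Fact.mk h
       if ∃ x', TrT g i₀ F x' ∧ CycPat (polys g x' i₀) l 0 then cycEvent g i₀ 1 l
       else cycEvent g i₀ 0 l)
    else ∅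
  refine trapL cF hcFpos l₀ Ω ?_ _ ?_
  · intro F q l hl hl0 hlq
    have : Fact l.Prime := ⟨hl⟩
    have h2 : Ω F q l = if ∃ x', TrT g i₀ F x' ∧ CycPat (polys g x' i₀) l 0 then
      cycEvent g i₀ 1 l else cycEvent g i₀ 0 l := dif_pos hl
    rw [h2, hcF, one_div, inv_mul_le_iff₀ (by exact_mod_cast hpos)]
    split_ifs with h4
    · exact_mod_cast cycEvent_lower g hg i₀ 1 (by omega) l (fun j => hl₀' j l hl0)
    · exact_mod_cast cycEvent_lower g hg i₀ 0 (by omega) l (fun j => hl₀' j l hl0)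
  · intro F q x hx l hl hl0 hlq hmem
    rw [not_not] at hx
    have : Fact l.Prime := ⟨hl⟩
    have h2 : Ω F q l = if ∃ x', TrT g i₀ F x' ∧ CycPat (polys g x' i₀) l 0 then
      cycEvent g i₀ 1 l else cycEvent g i₀ 0 l := dif_pos hl
    rw [h2] at hmem
    split_ifs at hmem with h4
    · obtain ⟨x', hx', hpat⟩ := h4
      obtain ⟨hirr, z, hz, hzF⟩ := hx
      obtain ⟨hirr', z', hz', hzF'⟩ := hx'
      refine trap_cyc (mkPoly_monic (g i₀) _) (mkPoly_monic (g i₀) _) hirr hirr' hl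
        (by rw [mkPoly_natDegree]; omega) (pat_of_mem g i₀ 1 (by omega) l x hmem) hpat z z' hz hz' ?_
      rw [hzF, ← hzF']
      exact IntermediateField.mem_adjoin_simple_self ℚ z'
    · exact h4 ⟨x, hx, pat_of_mem g i₀ 0 (by omega) l x hmem⟩

theorem rareL_noRoot (hg : ∀ i, 0 < g i) (d : ℕ) (hd : DimsU g d) (D : ℕ) :
    RareL g (J := {E : IntermediateField ℚ ℂ // Normal ℚ E ∧ FiniteDimensional ℚ E ∧
      Module.finrank ℚ E ≤ D})
      (fun E q x => NoRoot (fun i => weil q (polys g x i)) (lowField E.1 d)) := by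
  classical
  have h1 := rareL_all fun i => rareL_sub D _ (rareL_trA g hg i)
  rcases Nat.lt_or_ge d 3 with h | h
  · refine (rareL_and h1 (rareL_good g hg)).mono ?_
    rintro ⟨E, hE1, hE2, hE3⟩ q x hq - ⟨hx1, hx2⟩ i z hz hmem
    have hmem' : z ∈ E := by
      rw [lowField_eq E (by omega : d ≤ 2)] at hmem
      exact hmem
    exact hx1 i (IntermediateField.adjoin ℚ {z})
      (IntermediateField.adjoin_simple_le_iff.2 hmem') ⟨hx2.2.1 i, z, hz, rfl⟩
  · have h2 := rareL_all fun i => rareL_sub D _ (rareL_trT g hg i (h.trans (hd h i).1))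
    refine (rareL_and h2 (rareL_and (rareL_good g hg) (rareL_fullPat g hg fun i => h.trans (hd h i).1))).mono ?_
    rintro ⟨E, hE1, hE2, hE3⟩ q x hq - ⟨hx1, hx2, hx3⟩ i
    have hdeg : (polys g x i).natDegree = g i := mkPoly_natDegree (g i) _
    have hm : (polys g x i).Monic := mkPoly_monic (g i) _
    obtain ⟨h3, h4⟩ := hd h i
    refine noRoot_low hm hq.ne_zero (hx2.2.1 i) E d (by rw [hdeg]; exact h3) (by rw [hdeg]; exact h4)
      (hx3 i) fun z hz hmem => ?_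
    exact hx1 i (IntermediateField.adjoin ℚ {z})
      (IntermediateField.adjoin_simple_le_iff.2 hmem) ⟨hx2.2.1 i, z, hz, rfl⟩

end

end Pool.Agent.N578.LB
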