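import Mathlib
import Pool.Agent.N578.LB.Rare
import Pool.Agent.N578.LB.DefFor
import Pool.Agent.N205.SG.Count

set_option autoImplicit false

/-! Rare exceptions in all lattices: the final form, with parameters, and the application to the properties of
helper205 (helper578). -/

namespace Pool.Agent.N578.LB

open Filter Polynomial Pool.Agent.W521.Frob Pool.Agent.W521.Descent Pool.Agent.W521.Density
  Pool.Agent.W521.Count Pool.Agent.W521.Turan Pool.Agent.W521.Sieve Pool.Agent.W521.Bad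
  Pool.Agent.W521.Total Pool.Agent.W484.TB

theorem inAllLatticesFor {I : Type} [Fintype I] [DecidableEq I] (g : I → ℕ) {J : Type}
    {G : J → ℕ → ((Σ i, Fin (g i)) → ℤ) → Prop} (hG : RareL g G)
    (hg : ∀ i, 0 < g i) (P : J → ℕ → (I → ℤ[X]) → Prop)
    (hP : ∀ (j : J) (q : ℕ), IsPrimePow q → ∀ x : (Σ i, Fin (g i)) → ℤ,
      G j q x → P j q (fun i => weil q (polys g x i))) : InAllLatticesFor g P := by
  classical
  obtain ⟨C, hC, h⟩ := hG
  constructor
  · refine ⟨C, fun j q hq B hB A hA hAB a lo N hN => ?_⟩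
    refine le_trans ?_ (h j q hq B hB A hA hAB a lo N hN)
    rw [← Set.ncard_coe_finset]
    have : {y : (Σ i, Fin (g i)) → ℤ | (∀ s, lo s ≤ y s ∧ y s < lo s + N s) ∧
      (∀ i, ¬ (q : ℤ) ∣ (hpoly g (a + A.mulVec y) i).nextCoeff ^ 2) ∧
      ¬ P j q (fun i => fpoly q (hpoly g (a + A.mulVec y) i))}.ncard ≤ _ :=
      Set.ncard_le_ncard (t := (((box lo N).filter (fun y =>
        (∀ i, ¬ (q : ℤ) ∣ (polys g (aff A a y) i).nextCoeff ^ 2) ∧ ¬ G j q (aff A a y)) :
        Finset ((Σ i, Fin (g i)) → ℤ)) : Set ((Σ i, Fin (g i)) → ℤ))) (fun y hy => by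
          rw [Finset.mem_coe, Finset.mem_filter]
          refine ⟨?_, hy.2.1, fun h1 => hy.2.2 (hP j q hq _ h1)⟩
          unfold box
          rw [Fintype.mem_piFinset]
          intro s
          rw [Finset.mem_Ico]
          exact hy.1 s) (Finset.finite_toSet _)
    exact_mod_cast this
  · -- a large constant
    have ht : Tendsto (fun B : ℕ => C * (Real.log B * (B : ℝ) ^ (-(1 / 3) : ℝ))) atTop (nhds (C * 0)) := by
      apply Tendsto.const_mul
      have h1 := (isLittleO_log_rpow_atTop (show (0 : ℝ) < 1 / 3 by norm_num)).tendsto_div_nhds_zero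
      have h2 := h1.comp (tendsto_natCast_atTop_atTop (R := ℝ))
      refine h2.congr' ?_
      filter_upwards [eventually_ge_atTop 1] with B hB
      have : (0 : ℝ) < B := by exact_mod_cast hB
      simp only [Function.comp]
      rw [Real.rpow_neg this.le, div_eq_mul_inv]
    rw [mul_zero] at ht
    obtain ⟨B, hB, hB2⟩ := ((ht.eventually_lt_const (show (0 : ℝ) < 1 by norm_num)).and (eventually_ge_atTop 2)).exists
    refine ⟨4 * B ^ 2 + 2 * B + 1, fun j q hq hqR x₀ => ?_⟩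
    obtain ⟨m, hm1, hm2⟩ := sq_dvd hq
    have hm3 : 2 * B < m := by
      by_contra hcon
      push Not at hcon
      have : m ^ 2 ≤ (2 * B) ^ 2 := Nat.pow_le_pow_left hcon 2
      have h5 : (2 * B) ^ 2 = 4 * B ^ 2 := by ring
      omega
    -- the half without multiples
    have hhalf : ∀ c : ℤ, ∃ e : ℤ, (e = 0 ∨ e = B) ∧ ∀ t : ℤ, c + e ≤ t → t < c + e + B → ¬ (q : ℤ) ∣ t ^ 2 := by
      intro c
      by_cases hc : ∃ t : ℤ, c ≤ t ∧ t < c + B ∧ (q : ℤ) ∣ t ^ 2
      · obtain ⟨t, h1, h2, h3⟩ := hc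
        refine ⟨B, Or.inr rfl, fun t' h4 h5 h6 => ?_⟩
        have h7 : (m : ℤ) ∣ t' - t := dvd_sub (hm2 t' h6) (hm2 t h3)
        have h8 : (m : ℤ) ≤ t' - t := Int.le_of_dvd (by linarith) h7
        have h9 : (2 * B : ℤ) < m := by exact_mod_cast hm3
        linarith
      · push Not at hc
        exact ⟨0, Or.inl rfl, fun t h1 h2 => hc t (by linarith) (by linarith)⟩
    choose e he0 he using hhalf
    obtain ⟨lo, hlo⟩ : ∃ lo : (Σ i, Fin (g i)) → ℤ, lo = fun s => x₀ s + e (x₀ s) := ⟨_, rfl⟩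
    have hB2' : (2 : ℝ) ≤ B := by exact_mod_cast hB2
    have h1 := h j q hq B hB2' (1 : Matrix (Σ i, Fin (g i)) (Σ i, Fin (g i)) ℤ) (by rw [Matrix.det_one]; exact one_ne_zero)
      (by rw [Matrix.det_one]; simp; positivity) 0 lo (fun _ => B) (fun _ => le_rfl)
    have h2 : ((box lo (fun _ => B)).filter (fun y =>
        (∀ i, ¬ (q : ℤ) ∣ (polys g (aff 1 0 y) i).nextCoeff ^ 2) ∧ ¬ G j q (aff 1 0 y))).card <
        (box lo (fun _ => B)).card := by
      have hpos : (0 : ℝ) < ∏ s : (Σ i, Fin (g i)), (B : ℝ) := Finset.prod_pos fun _ _ => by linarith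
      have h3 : (((box lo (fun _ => B)).card : ℕ) : ℝ) = ∏ s : (Σ i, Fin (g i)), (B : ℝ) := by
        rw [card_box]
        push_cast
        rfl
      have h4 : (((box lo (fun _ => B)).filter (fun y =>
        (∀ i, ¬ (q : ℤ) ∣ (polys g (aff 1 0 y) i).nextCoeff ^ 2) ∧ ¬ G j q (aff 1 0 y))).card : ℝ) <
        (box lo (fun _ => B)).card := by
        rw [h3]
        refine lt_of_le_of_lt h1 ?_
        calc C * (Real.log B * (B : ℝ) ^ (-(1 / 3) : ℝ)) * ∏ s : (Σ i, Fin (g i)), (B : ℝ)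
            < 1 * ∏ s : (Σ i, Fin (g i)), (B : ℝ) := mul_lt_mul_of_pos_right hB hpos
          _ = _ := one_mul _
      exact_mod_cast h4
    obtain ⟨x, hx1, hx2⟩ : ∃ x ∈ box lo (fun _ => B), x ∉ (box lo (fun _ => B)).filter (fun y =>
        (∀ i, ¬ (q : ℤ) ∣ (polys g (aff 1 0 y) i).nextCoeff ^ 2) ∧ ¬ G j q (aff 1 0 y)) := by
      by_contra hcon
      push Not at hcon
      exact absurd (Finset.card_le_card (show box lo (fun _ => B) ⊆ _ from hcon)) (not_le.2 h2)
    have haff : aff 1 0 x = x := by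
      funext s
      unfold aff
      simp
    rw [Finset.mem_filter, haff] at hx2
    have hxs : ∀ s, lo s ≤ x s ∧ x s < lo s + B := by
      intro s
      have := hx1
      unfold box at this
      rw [Fintype.mem_piFinset] at this
      exact Finset.mem_Ico.1 (this s)
    refine ⟨x, fun s => ?_, hP j q hq x ?_⟩
    · have h3 := hxs s
      rw [hlo] at h3
      simp only at h3
      have h4 : 0 ≤ e (x₀ s) ∧ e (x₀ s) ≤ B := by
        rcases he0 (x₀ s) with h5 | h5
        · rw [h5]; exact ⟨le_rfl, by positivity⟩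
        · rw [h5]; exact ⟨by positivity, le_rfl⟩
      have h5 : (B : ℤ) ≤ 4 * B ^ 2 + 2 * B + 1 := by nlinarith
      rw [abs_le]
      push_cast
      constructor
      · linarith [h3.1, h4.1]
      · have : (0 : ℤ) ≤ B := by positivity
        nlinarith [h3.2, h4.2]
    · by_contra hcon
      apply hx2
      refine ⟨hx1, fun i => ?_, hcon⟩
      have hgi := hg i
      have hnext : (polys g x i).nextCoeff = x ⟨i, ⟨g i - 1, by omega⟩⟩ := by
        unfold polys
        rw [nextCoeff_of_natDegree_pos (by rw [mkPoly_natDegree]; exact hgi), mkPoly_natDegree]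
        exact mkPoly_coeff (g i) (fun k => x ⟨i, k⟩) ⟨g i - 1, by omega⟩
      rw [hnext]
      have h3 := hxs ⟨i, ⟨g i - 1, by omega⟩⟩
      rw [hlo] at h3
      simp only at h3
      exact he _ _ h3.1 h3.2

/-- the property `P` for all good points, together with the independence of all tame sets -/
theorem indepLattices {I : Type} [Fintype I] [DecidableEq I] (g : I → ℕ) (hg : ∀ i, 0 < g i) (d : ℕ)
    (hd : Pool.Agent.N205.SG.DimsU g d) (D : ℕ) (P : ℕ → (I → ℤ[X]) → Prop)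
    (hP : ∀ q : ℕ, IsPrimePow q → ∀ x : (Σ i, Fin (g i)) → ℤ, Good g q x →
      P q (fun i => weil q (polys g x i))) :
    InAllLatticesFor g (J := {χ₀ : ℚ[X] // χ₀ ≠ 0 ∧ χ₀.natDegree ≤ D})
      (fun χ₀ q f => P q f ∧ Pool.Agent.N205.SG.TameIndep g d q χ₀.1 f) := by
  classical
  have hG := rareL_and (rareL_good g hg) (rareL_noRoot g hg d hd D.factorial)
  have hE : ∀ χ₀ : {χ₀ : ℚ[X] // χ₀ ≠ 0 ∧ χ₀.natDegree ≤ D}, ∃ E : {E : IntermediateField ℚ ℂ // Normal ℚ E ∧
      FiniteDimensional ℚ E ∧ Module.finrank ℚ E ≤ D.factorial}, ∀ z : ℂ, aeval z χ₀.1 = 0 → z ∈ E.1 := by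
    rintro ⟨χ₀, h0, hD⟩
    obtain ⟨E, hEn, hEf, hEd, hE⟩ := Pool.Agent.N205.SD.splitFact χ₀ h0
    exact ⟨⟨E, hEn, hEf, hEd.trans (Nat.factorial_le hD)⟩, hE⟩
  choose E hE using hE
  have hG' : RareL g (J := {χ₀ : ℚ[X] // χ₀ ≠ 0 ∧ χ₀.natDegree ≤ D}) (fun χ₀ q x => Good g q x ∧
      Pool.Agent.N205.SD.NoRoot (fun i => weil q (polys g x i)) (Pool.Agent.N205.SD.lowField (E χ₀).1 d)) := by
    obtain ⟨C, hC, h⟩ := hG
    exact ⟨C, hC, fun χ₀ => h (E χ₀)⟩
  refine inAllLatticesFor g hG' hg _ (fun χ₀ q hq x hx => ⟨hP q hq x hx.1, ?_⟩)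
  exact Pool.Agent.N205.SG.tame_of_criterion (E χ₀).2.1 (hE χ₀)
    (Pool.Agent.N205.SE.criterion_of_good g hq.pos.ne' x hx.1) hx.2

end Pool.Agent.N578.LB
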